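import Pool.Agent.Results.MP_fbe9f6_co.RamseyClasses

set_option autoImplicit false

namespace Pool.Agent.Results.MP_37c966_co.DistanceTwo

/-- A finite simple graph with at least two vertices. -/
structure Gr where
  /-- the vertices -/
  V : Type
  /-- finiteness -/
  fin : Finite V
  /-- at least two vertices -/
  nt : Nontrivial V
  /-- the graph -/
  G : SimpleGraph V

/-- `c` is a colouring of `H` none of whose classes contains an induced copy of `F`. -/
def IsFree {W U κ : Type} (H : SimpleGraph W) (F : SimpleGraph U) (c : W → κ) : Prop :=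
  ∀ i : κ, IsEmpty (F ↪g H.induce {v | c v = i})

/-- `χ(H : -F) = n`: `n` is the least number of classes of an `F`-free colouring of `H`. -/
def FreeChi {W U : Type} (H : SimpleGraph W) (F : SimpleGraph U) (n : ℕ) : Prop :=
  IsLeast {k : ℕ | ∃ c : W → Fin k, IsFree H F c} n

/-- `F ≍_n G` -/
def RelatedN (n : ℕ) (F G : Gr) : Prop :=
  ∃ (W : Type) (_ : Finite W) (H : SimpleGraph W), FreeChi H F.G n ∧ FreeChi H G.G n

/-- `F ≍ G` -/
def Related (F G : Gr) : Prop := ∀ n : ℕ, 1 ≤ n → RelatedN n F G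

/-- there are graphs `R_0, …, R_k` with `F ≅ R_0 ≍ R_1 ≍ ⋯ ≍ R_k ≅ G` -/
def HasChain (k : ℕ) (F G : Gr) : Prop :=
  ∃ R : Fin (k + 1) → Gr, Nonempty (F.G ≃g (R 0).G) ∧ Nonempty ((R (Fin.last k)).G ≃g G.G) ∧
    ∀ i : Fin k, Related (R i.castSucc) (R i.succ)

/-- the chromatic distance -/
noncomputable def chromDist (F G : Gr) : ℕ := sInf {k | HasChain k F G}

open Pool.Agent.Results.MP_fbe9f6_co.BipartiteRelated

lemma related_of (F G : Gr) (h : ChromaticallyRelated F.G G.G) : Related F G := by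
  intro n hn
  rcases Nat.lt_or_ge n 2 with h1 | h1
  · have hn1 : n = 1 := by omega
    subst hn1
    have key : ∀ K : Gr, FreeChi (⊥ : SimpleGraph (Fin 1)) K.G 1 := by
      intro K
      refine ⟨⟨fun _ => 0, fun i => ⟨fun f => ?_⟩⟩, ?_⟩
      · have hnt := K.nt
        obtain ⟨x, y, hxy⟩ := exists_pair_ne K.V
        apply hxy
        apply f.injective
        exact Subtype.ext (Subsingleton.elim _ _)
      · rintro k ⟨c, -⟩
        exact (c 0).pos
    exact ⟨Fin 1, inferInstance, ⊥, key F, key G⟩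
  · exact h n h1

lemma related_symm {F G : Gr} (h : Related F G) : Related G F := by
  intro n hn
  obtain ⟨W, hW, H, h1, h2⟩ := h n hn
  exact ⟨W, hW, H, h2, h1⟩

/-- the complete graph on `n ≥ 2` vertices -/
def K (n : ℕ) (hn : 2 ≤ n) : Gr :=
  ⟨Fin n, inferInstance, Fin.nontrivial_iff_two_le.2 hn, ⊤⟩

/-- the edgeless graph on `n ≥ 2` vertices -/
def N (n : ℕ) (hn : 2 ≤ n) : Gr :=
  ⟨Fin n, inferInstance, Fin.nontrivial_iff_two_le.2 hn, ⊥⟩

/-- a noncomplete graph is related to every sufficiently large complete graph -/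
lemma related_big {V : Type} [Finite V] [Nontrivial V] (G : SimpleGraph V) (h : G ≠ ⊤)
    (n : ℕ) (hn : 2 ≤ n) (hV : Nat.card V < n) :
    ChromaticallyRelated G (⊤ : SimpleGraph (Fin n)) := by
  rw [Pool.Agent.Results.MP_fbe9f6_co.RamseyClasses.result.{0, 0, 0}.1 V G n hn]
  refine ⟨⟨fun _ => 0, fun i => ⟨fun f => ?_⟩⟩, fun h' => absurd h' h⟩
  have hinj : Function.Injective (fun x : Fin n => ((f x : {v | (fun _ => (0 : Fin 2)) v = i}) : V)) :=
    Subtype.val_injective.comp f.injective
  have := Nat.card_le_card_of_injective _ hinj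
  rw [Nat.card_fin] at this
  omega

lemma K_related (F : Gr) (h : F.G ≠ ⊤) (n : ℕ) (hn : 2 ≤ n) (hV : Nat.card F.V < n) :
    Related F (K n hn) := by
  have := F.fin
  have := F.nt
  exact related_of F (K n hn) (related_big F.G h n hn hV)

lemma N_related (F : Gr) (h : F.G ≠ ⊥) (n : ℕ) (hn : 2 ≤ n) (hV : Nat.card F.V < n) :
    Related F (N n hn) := by
  have := F.fin
  have := F.nt
  apply related_of F (N n hn)
  apply Pool.Agent.Y783.CR.related_compl
  have h1 : (N n hn).Gᶜ = (⊤ : SimpleGraph (Fin n)) := compl_bot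
  rw [h1]
  refine related_big F.Gᶜ ?_ n hn hV
  intro h2
  exact h (compl_eq_top.1 h2)

/-- a complete and an edgeless graph have a common relative -/
lemma complete_edgeless (F G : Gr) (hF : F.G = ⊤) (hG : G.G = ⊥) :
    ∃ R : Gr, Related F R ∧ Related R G := by
  have := F.fin
  have := F.nt
  have := G.fin
  have := G.nt
  set m := Nat.card F.V with hm
  have hm2 : 2 ≤ m := Finite.one_lt_card
  refine ⟨K m hm2, ?_, related_symm ?_⟩
  · apply related_of F (K m hm2)
    show ChromaticallyRelated F.G (⊤ : SimpleGraph (Fin m))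
    rw [Pool.Agent.Results.MP_fbe9f6_co.RamseyClasses.result.{0, 0, 0}.1 F.V F.G m hm2]
    refine ⟨?_, fun _ => by omega⟩
    -- split off one vertex
    classical
    obtain ⟨x, y, hxy⟩ := exists_pair_ne F.V
    refine ⟨fun v => if v = x then 0 else 1, fun i => ⟨fun f => ?_⟩⟩
    have hinj : Function.Injective
        (fun z : Fin m => ((f z : {v | (fun v => if v = x then (0 : Fin 2) else 1) v = i}) : F.V)) :=
      Subtype.val_injective.comp f.injective
    have hbij : Function.Bijective
        (fun z : Fin m => ((f z : {v | (fun v => if v = x then (0 : Fin 2) else 1) v = i}) : F.V)) := by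
      have : Fintype F.V := Fintype.ofFinite _
      rw [Fintype.bijective_iff_injective_and_card]
      exact ⟨hinj, by rw [Fintype.card_fin, hm, Nat.card_eq_fintype_card]⟩
    obtain ⟨a, ha⟩ := hbij.2 x
    obtain ⟨b, hb⟩ := hbij.2 y
    have h1 := (f a).2
    have h2 := (f b).2
    simp only [Set.mem_setOf_eq] at h1 h2 ha hb
    rw [ha] at h1
    rw [hb] at h2
    simp only [if_true] at h1
    rw [if_neg hxy.symm] at h2
    rw [← h1] at h2
    exact absurd h2 (by decide)
  · apply related_of G (K m hm2)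
    show ChromaticallyRelated G.G (⊤ : SimpleGraph (Fin m))
    rw [Pool.Agent.Results.MP_fbe9f6_co.RamseyClasses.result.{0, 0, 0}.1 G.V G.G m hm2, hG]
    refine ⟨⟨fun _ => 0, fun i => ⟨fun f => ?_⟩⟩, fun h => ?_⟩
    · have h1 : (⊤ : SimpleGraph (Fin m)).Adj ⟨0, by omega⟩ ⟨1, by omega⟩ := by
        simp
      have h2 := f.map_adj_iff.2 h1
      exact h2
    · exfalso
      obtain ⟨x, y, hxy⟩ := exists_pair_ne G.V
      have h3 : (⊤ : SimpleGraph G.V).Adj x y := hxy
      rw [← h] at h3
      exact h3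

/-- Any two graphs with at least two vertices have a common relative. -/
lemma common (F G : Gr) : ∃ R : Gr, Related F R ∧ Related R G := by
  have := F.fin
  have := G.fin
  set n := Nat.card F.V + Nat.card G.V + 2 with hn
  have hn2 : 2 ≤ n := by omega
  by_cases h1 : F.G ≠ ⊤ ∧ G.G ≠ ⊤
  · exact ⟨K n hn2, K_related F h1.1 n hn2 (by omega),
      related_symm (K_related G h1.2 n hn2 (by omega))⟩
  by_cases h2 : F.G ≠ ⊥ ∧ G.G ≠ ⊥
  · exact ⟨N n hn2, N_related F h2.1 n hn2 (by omega),
      related_symm (N_related G h2.2 n hn2 (by omega))⟩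
  have hne : ∀ X : Gr, ¬ (X.G = ⊤ ∧ X.G = ⊥) := by
    rintro X ⟨h3, h4⟩
    have := X.nt
    obtain ⟨x, y, hxy⟩ := exists_pair_ne X.V
    have h5 : (⊤ : SimpleGraph X.V).Adj x y := hxy
    rw [← h3, h4] at h5
    exact h5
  have hFG : (F.G = ⊤ ∧ G.G = ⊥) ∨ (F.G = ⊥ ∧ G.G = ⊤) := by
    have hF := hne F
    have hG := hne G
    tauto
  rcases hFG with ⟨h3, h4⟩ | ⟨h3, h4⟩
  · exact complete_edgeless F G h3 h4
  · obtain ⟨R, h5, h6⟩ := complete_edgeless G F h4 h3
    exact ⟨R, related_symm h6, related_symm h5⟩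

/-- For any two finite graphs `F`, `G` with at least two vertices there is a finite graph `R` with
at least two vertices and `F ≍ R ≍ G`; so the chromatic distance of `F` and `G` is at most `2`. -/
theorem result (F G : Gr) :
    (∃ R : Gr, Related F R ∧ Related R G) ∧ HasChain 2 F G ∧ chromDist F G ≤ 2 := by
  obtain ⟨R, h1, h2⟩ := common F G
  have h3 : HasChain 2 F G := by
    refine ⟨![F, R, G], ⟨SimpleGraph.Iso.refl⟩, ⟨SimpleGraph.Iso.refl⟩, ?_⟩
    intro i
    fin_cases i
    · exact h1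
    · exact h2
  exact ⟨⟨R, h1, h2⟩, h3, Nat.sInf_le h3⟩

end Pool.Agent.Results.MP_37c966_co.DistanceTwo
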